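import Mathlib
import Pool.Agent.Y69.DZ.Count0

/-!
# MP_f7db47_al: the assembly map in degree `0` over `ℤ`, for every group `G`
-/

set_option autoImplicit false

namespace Pool.Agent.Results.MP_f7db47_al.DegreeZeroIntegral

open Pool.Agent.Y69.NK Pool.Agent.Y69.DZ

theorem result (G : Type) [Group G] (ι : Type) [Fintype ι] (C : ι → Subgroup G)
    (hfin : ∀ i, Finite (C i)) (hcyc : ∀ i, IsCyclic (C i)) (hne : ∀ i, C i ≠ ⊥)
    (hconj : ∀ i j, (∃ g : G, (C i).map (MulAut.conj g).toMonoidHom = C j) → i = j) :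
    ∃ f : _root_.Fin (∑ i, (∑ p ∈ (Nat.card (C i)).primeFactors,
        numClasses p (C i) * dP p (C i) - dA (C i))) → RK0 (MonoidAlgebra ℤ G),
      LinearIndependent ℤ f ∧
      ∀ k, ∃ (i : ι) (ψ : C i × Multiplicative ℤ →* G)
        (x : K0 (MonoidAlgebra ℤ (C i × Multiplicative ℤ))), (∀ c, ψ (c, 1) = c) ∧
        f k = RK0.mk _ (K0.map (MonoidAlgebra.mapDomainRingHom ℤ ψ) x) := by
  let _ : ∀ i, CommGroup (C i) := fun i => (hcyc i).commGroup
  choose γ hγ using fun i => (hcyc i).exists_generator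
  exact main0' (fun i => (C i).subtype) C (fun i => Subgroup.range_subtype _)
    (fun i => Subtype.val_injective) γ hγ (fun i h1 => hne i (Subgroup.card_eq_one.1 h1)) hconj

end Pool.Agent.Results.MP_f7db47_al.DegreeZeroIntegral
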