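import Pool.Agent.Y477.IW.UFin
import Pool.Agent.Y477.IW.GP

/-!
Let the group `Γ` act on a group `N` and on a set `X` with finite point stabilizers, let `e_S`
(`S ⊆ X`) be compatible retractions of `N`, and let `C` be an invariant set of finite subsets of `X`,
closed under subsets, with finite parts `N_S`, `S ∈ C` (for instance, `N` the graph product of copies
of a finite group over an invariant graph with vertex set `X` and `C` the finite cliques). For every
ring `R`, the map from the colimit of the groups `K₁(R[H])` over the finite subgroups `H` of `N ⋊ Γ`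
to `K₁(R[N ⋊ Γ])` is injective on the part of the colimit given by the groups `N_S`, up to the orders
of the finite subgroups of `Γ`, and modulo `K₁(R[Γ])`; if every finite subgroup of `N ⋊ Γ` is
conjugate into some `N_S`, it is injective.
-/

namespace Pool.Agent.Results.MP_f7db47_al.FiniteSubgroupsKOne

open Pool.Agent.Y477.IW CategoryTheory

theorem result (Γ X : Type) [Group Γ] [MulAction Γ X]
    (hst : ∀ v : X, Finite (MulAction.stabilizer Γ v)) :
    (∀ (R : Type) [Ring R] (N : Type) [Group N] (φ : Γ →* MulAut N) (us : USupp φ X)
      (C : Set (Finset X)), IsFamily Γ C → (∀ S ∈ C, Finite (us.part (S : Set X))) →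
      ColimitEmbeds (kgr_inner R) us C) ∧
    ∀ (P : Type) [Group P] (Λ : SimpleGraph X),
      (∀ (γ : Γ) (u v : X), Λ.Adj u v → Λ.Adj (γ • u) (γ • v)) → HasRetractions Γ P Λ :=
  ⟨fun R _ _ _ _ us _ hC hfin => col_k us R hst hC hfin,
    fun P _ Λ hΛ => hasRetractions Γ P Λ hΛ⟩

end Pool.Agent.Results.MP_f7db47_al.FiniteSubgroupsKOne
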