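import Mathlib
import Pool.Agent.Y35.KC.Ev

/-!
# Higher Chern characters of `K₀(R[G])` at the elements of finite order

Let `R` be a commutative ring, `G` a group and `e` an idempotent matrix over `R[G]`. The component
of the Chern character of the class of `e` at the conjugacy class of an element `g` of finite order
is, in degree `2 k`, a homology class of the centralizer of `g`, which we pair with the alternating
homogeneous cocycles `c` of degree `2 k` on `G` which are invariant under left multiplication by the
centralizer of `g`. The Farrell-Jones conjecture says that `K₀(R[G])` is assembled from the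
virtually cyclic subgroups, where all these numbers are zero for `k ≥ 1`. We prove, for all groups
`G` and all commutative rings `R`, that they are zero, up to the factor `(2 k)! / k!`, if the
values of `c` lie in a finitely generated module over a finitely generated subring of `R`, for
example if `c` is `ℤ`-valued. In particular they are zero for all fields `R` of characteristic zero
or of characteristic `p > 2 k`.
-/

set_option autoImplicit false

namespace Pool.Agent.Results.MP_f7db47_al.HigherChernFiniteOrder

universe u1 u2 u3 u4

/-- An alternating homogeneous cocycle `c` of degree `n` on `G` with values in `M` which is invariant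
under left multiplication of all variables by elements of the centralizer of `g`, and under left
multiplication of a single variable by `g`. -/
structure IsClassCocycle {G : Type u1} [Group G] {M : Type u3} [AddCommGroup M] (g : G) {n : ℕ}
    (c : (Fin (n + 1) → G) → M) : Prop where
  perm : ∀ (v : Fin (n + 1) → G) (σ : Equiv.Perm (Fin (n + 1))),
    c (v ∘ σ) = ((Equiv.Perm.sign σ : ℤˣ) : ℤ) • c v
  rep : ∀ (v : Fin (n + 1) → G) (i j : Fin (n + 1)), i ≠ j → v i = v j → c v = 0
  left : ∀ z : G, z * g = g * z → ∀ v : Fin (n + 1) → G, c (fun i => z * v i) = c v
  single : ∀ (v : Fin (n + 1) → G) (i : Fin (n + 1)), c (Function.update v i (g * v i)) = c v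
  closed : ∀ v : Fin (n + 2) → G, ∑ i : Fin (n + 2), (-1 : ℤ) ^ (i : ℕ) • c (v ∘ i.succAbove) = 0

/-- The values of `c` lie in the module generated by a finite set `F` over the subring generated by
a finite subset `s` of `R`. -/
def FinGenValues (R : Type u2) [CommRing R] {M : Type u3} [AddCommGroup M] [Module R M]
    {X : Type u1} (c : X → M) : Prop :=
  ∃ (s : Finset R) (F : Finset M),
    ∀ v, c v ∈ Submodule.span (Algebra.adjoin ℤ (s : Set R)) (F : Set M)

open Classical in
/-- The pairing of the component at the class of `g` of the Chern character of `e` with `c`: the sum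
over all `w = (w₀, …, w_n)` whose product `y` is conjugate to `g`, `g = t y t⁻¹`, of
`tr (e_{w₀} e_{w₁} ⋯ e_{w_n}) c (t, t w₀, t w₀ w₁, …, t w₀ ⋯ w_{n-1})`, where `e_s` is the matrix of
the coefficients of `e` at `s`. -/
noncomputable def chernNumber {G : Type u1} [Group G] {R : Type u2} [CommRing R] {M : Type u3}
    [AddCommGroup M] [Module R M] {d : Type u4} [Fintype d] [DecidableEq d] (g : G) (t : G → G)
    {n : ℕ} (c : (Fin (n + 1) → G) → M) (e : Matrix d d (MonoidAlgebra R G)) : M :=
  ∑ᶠ w : Fin (n + 1) → G, if IsConj (List.ofFn w).prod g then
    (List.ofFn fun i => e.map fun x => x.coeff (w i)).prod.trace •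
      (c fun i => t (List.ofFn w).prod * ((List.ofFn w).take i).prod) else 0

/-- `G` is any group, `R` any commutative ring, `e` an idempotent matrix over `R[G]`, `g` an element
of finite order, `t y` an element with `t y * y * (t y)⁻¹ = g` for all `y` conjugate to `g`, `k ≥ 1`,
`c` a cocycle of degree `2 k` for `g` with values in an `R`-module `M`, in a finitely generated
module over a finitely generated subring of `R`. Then `(2 k)! / k!` times the pairing of `c` with
the Chern character of `e` is zero. -/
theorem result (G : Type u1) [Group G] (R : Type u2) [CommRing R] (M : Type u3) [AddCommGroup M]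
    [Module R M] (d : Type u4) [Fintype d] [DecidableEq d] (e : Matrix d d (MonoidAlgebra R G))
    (he : e * e = e) (g : G) (hg : IsOfFinOrder g) (t : G → G)
    (ht : ∀ y, IsConj y g → t y * y * (t y)⁻¹ = g) (k : ℕ) (hk : 1 ≤ k)
    (c : (Fin (2 * k + 1) → G) → M) (hc : IsClassCocycle g c) (hv : FinGenValues R c) :
    (2 * k).descFactorial k • chernNumber g t c e = 0 :=
  Pool.Agent.Y35.KC.ev_zero e he hg ht (by omega)
    ⟨hc.perm, hc.rep, hc.left, hc.single, hc.closed⟩ hv

end Pool.Agent.Results.MP_f7db47_al.HigherChernFiniteOrder
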